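import Pool.Agent.Helper27.PB.VSM2Fa

/-!
# Project B (MP_fc6b1e_nt), packet V_SM2F: the main theorem
-/

set_option autoImplicit false
set_option linter.unusedSectionVars false

namespace Pool.Agent.Helper27.PB

open NumberField Polynomial Module IsDedekindDomain
open Pool.Agent.Helper51.RP Pool.Agent.Helper42.RD Pool.Agent.Helper42.PP Pool.Agent.Helper42.PP1
open Pool.Agent.Helper42.PB Pool.Agent.Helper76.PP Pool.Agent.Helper76.PB
open Pool.Agent.Helper40.RS (bel gw bel_smul lies conj_of_bel val_smul)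
open Pool.Agent.Helper13.RD (eq_gw eq_of_val)
open Pool.Agent.Helper40.RD (bel_of_above ordW valW)

theorem v_sm2f : V_SM2F := by
  have hUPR := Pool.Agent.Helper16.PP.p_upr
  have hCHR := Pool.Agent.Helper96.PP.b_chr
  have hIDN := Pool.Agent.Helper94.PP.b_idn
  have hCRT := Pool.Agent.Helper56.PP.b_crt Pool.Agent.Helper16.PP.p_upr hIDN
  have hNOR := Pool.Agent.Helper32.PP.b_nor Pool.Agent.Helper16.PP.p_upr
  have hLOG := w_log
  have hNRM := w_nrm
  classical
  intro p _ K M K₁ M₁ J M₂ _ _ _ _ _ _ _ _ _ _ _ _ _ _ _ _ _ _ _ _ _ _ _ ε δ P a₀ hS B BB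
    n E hN tr htr β D y hD hne hf
  have hs := hS.sit
  have := hs.st1
  have := hs.st2
  have := hs.gM
  have := hs.gK
  have := hs.gMK
  have := hS.t1
  have := hS.t2
  have := hS.gM₂
  have hKMM₂ : IsScalarTower K M M₂ := by
    apply IsScalarTower.of_algebraMap_eq
    intro x
    rw [IsScalarTower.algebraMap_apply K M₁ M₂, IsScalarTower.algebraMap_apply K M M₁,
      ← IsScalarTower.algebraMap_apply M M₁ M₂]
  have hord := hs.ord
  have : Fact (Irreducible P) := ⟨hs.irr⟩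
  have hMM : IsGalois M M₂ := IsGalois.tower_top_of_isGalois K M M₂
  have hsub : Spl M₂ B.S ⊆ B.Vis := by
    rintro v ⟨hv, W, hW, hWf⟩
    refine ⟨hv, bel M₁ W, bel_of hW rfl, free_below (M := M₁) (w := bel M₁ W) rfl hWf⟩
  have hDv : ∀ v ∈ D, v ∈ B.Vis := fun v hv => hsub (hD v hv).1
  have hP := fF_isP hNRM hs B E β D y hDv
  have hroot : (AdjoinRoot.root P) ^ finrank K M = 1 := root_pow_m _ hs.dvdP
  have htr1 : ∀ η : AdjoinRoot P, (∀ i : ℕ, tr (η * AdjoinRoot.root P ^ i) = 0) → η = 0 :=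
    fun η h ↦ Pool.Agent.Helper12.PP.kap_eta p P hs.irr tr htr η
      (Pool.Agent.Helper12.PP.kap_span p P tr η h)
  set F : M₂ˣ → ZMod p := fun x ↦ tr (fSF B E β D y (nrm M M₂ x)) with hF
  have hprin : ∀ n : HeightOneSpectrum (𝓞 M₂) →₀ ℤ, ∃ x : M₂ˣ, ∀ w ∉ up M₂ B.S,
      ordv w (x : M₂) = n w := pr_of_top B.S (BB.pr ⊤)
  have hgh : Hom F := by
    intro a b
    simp only [hF]
    rw [map_mul, hP.1, map_add]
  have hgu : ∀ x ∈ (up M₂ B.S).unit M₂, F x = 0 := by
    intro x hx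
    simp only [hF]
    rw [fF_unit hNRM hs B E β D y hP hf _ ((hNOR p K M M₂ B.S).1 x hx), map_zero]
  have hray : ∀ (x : M₂ˣ) (α : 𝓞 M₂), (x : M₂) = α → α - 1 ∈ mD p M₂ B.S D → F x = 0 := by
    intro x α hx hα
    have h1 := (hNOR p K M M₂ B.S).2.2.1 x α hx
    have h2 : LocS p (up M B.S) (nrm M M₂ x) := h1.1 (mD_le_modu B.S D hα)
    simp only [hF]
    have h3 : fSF B E β D y (nrm M M₂ x) = 0 := by
      unfold fSF
      rw [Finset.sum_eq_zero, Finset.sum_eq_zero, add_zero]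
      · intro v hv
        rw [R_zero hLOG hs B (hDv v hv) _ (h1.2 v (mD_le B.S D hv hα)), mul_zero]
      · intro j _
        rw [E.hL j _ h2, mul_zero]
    rw [h3, map_zero]
  obtain ⟨c1, c2, c3, c4, c5⟩ := hCHR p M₂ (up M₂ B.S) hprin (mD p M₂ B.S D)
    (mD_ne_bot hIDN B.S D B.abp) F hgh hgu hray
  refine ⟨hsub, c3, ?_, ?_⟩
  · by_cases hDne : D.Nonempty
    · -- D not empty
      obtain ⟨v₁, hv₁⟩ := hDne
      obtain ⟨e, he⟩ : ∃ e : ℕ, tr (y v₁ * AdjoinRoot.root P ^ e) ≠ 0 := by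
        by_contra h
        push Not at h
        exact (hD v₁ hv₁).2 (htr1 _ h)
      have hvis := hDv v₁ hv₁
      obtain ⟨hWv, hWQ, hWw, hWf⟩ := B.Wa v₁ hvis
      have hwv : Above (B.w v₁) v₁ := bel_of hWv hWw
      obtain ⟨i, hi, hie⟩ := root_pow_sub finrank_pos hroot e
      obtain ⟨w₀, hw₀, hw₀b⟩ := exists_pull (K := K) (B.w v₁) (δ ^ i)
      have hw₀v : Above w₀ v₁ := by
        rw [bel_of_above hwv] at hw₀b
        rw [← hw₀b]; rfl
      obtain ⟨W₀, hW₀⟩ := (hUPR 0 M M₂ ∅).2.2.2.2.2.1 w₀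
      have hW₀v : Above W₀ v₁ := above_trans hW₀ hw₀v
      have hW₀f : FreeP K W₀ := by
        obtain ⟨-, W', hW', hW'f⟩ := (hD v₁ hv₁).1
        exact free_conj hW' hW₀v hW'f
      obtain ⟨c, hc, hcth⟩ := (hLOG p K M K₁ M₁ ε δ P hs B v₁ hvis).2.1
      obtain ⟨α, hα0, hαm, hαc, hα1, hcop1, hcop2⟩ := hCRT p K M₂ B.S (D.erase v₁) B.abp v₁
        hvis.1 (Finset.notMem_erase v₁ D) c hc W₀ hW₀v
      have hαM : (α : M₂) ≠ 0 := by
        intro h
        exact hα0 (RingOfIntegers.ext h)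
      set x : M₂ˣ := Units.mk0 (α : M₂) hαM with hx
      have hxα : (x : M₂) = α := rfl
      obtain ⟨n1, n2⟩ := nrm_cong hw₀v hW₀ hW₀v hW₀f c α x hxα hαc hα1
      have hR1 := R_val hLOG hs hord B hvis hi hw₀ hcth (nrm M M₂ x) n1 n2
      have hNx := (hNOR p K M M₂ B.S).2.2.1 x α hxα
      have hL : LocS p (up M B.S) (nrm M M₂ x) := hNx.1 (mD_le_modu B.S _ hαm)
      have hval : fSF B E β D y (nrm M M₂ x) = y v₁ * AdjoinRoot.root P ^ e := by
        unfold fSF
        rw [Finset.sum_eq_zero (fun j _ => by rw [E.hL j _ hL, mul_zero]), zero_add,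
          Finset.sum_eq_single_of_mem v₁ hv₁, hR1, hie]
        intro v hv hne'
        have h1 : α - 1 ∈ v.asIdeal.map (algebraMap (𝓞 K) (𝓞 M₂)) :=
          mD_le B.S _ (Finset.mem_erase.2 ⟨hne', hv⟩) hαm
        rw [R_zero hLOG hs B (hDv v hv) _ (hNx.2 v h1), mul_zero]
      refine ⟨Ideal.span {α}, ?_, ?_, ?_, fun _ => ⟨_, rfl⟩⟩
      · rw [Ne, Ideal.span_singleton_eq_bot]
        exact hα0
      · have h1 : mD p M₂ B.S D = mD p M₂ B.S (D.erase v₁) *
            v₁.asIdeal.map (algebraMap (𝓞 K) (𝓞 M₂)) := by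
          unfold mD
          rw [← Finset.mul_prod_erase D _ hv₁]
          ring
        rw [h1, ← Ideal.isCoprime_iff_sup_eq]
        exact (Ideal.isCoprime_iff_sup_eq.2 hcop2).mul_right (Ideal.isCoprime_iff_sup_eq.2 hcop1)
      · rw [c4 x α hxα]
        simp only [hF]
        rw [hval]
        exact he
    · -- D empty
      have hβ : β ≠ 0 := hne.resolve_left hDne
      have hD0 : D = ∅ := Finset.not_nonempty_iff_eq_empty.1 hDne
      obtain ⟨x, hx⟩ : ∃ x : M₂ˣ, fSF B E β D y (nrm M M₂ x) ≠ 0 := by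
        by_contra h
        push Not at h
        apply hβ
        apply hN
        · intro i
          have h1 := hf i
          unfold fSF at h1
          rw [hD0, Finset.sum_empty, add_zero] at h1
          exact h1
        · intro x
          have h1 := h x
          unfold fSF at h1
          rw [hD0, Finset.sum_empty, add_zero] at h1
          exact h1
      obtain ⟨e, he⟩ : ∃ e : ℕ, tr (fSF B E β D y (nrm M M₂ x) * AdjoinRoot.root P ^ e) ≠ 0 := by
        by_contra h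
        push Not at h
        exact hx (htr1 _ h)
      obtain ⟨g, hg⟩ := AlgEquiv.restrictNormalHom_surjective (F := K) (K₁ := M) M₂ (δ ^ e)
      have hgc : ∀ y : M, g (algebraMap M M₂ y) = algebraMap M M₂ ((δ ^ e) y) := by
        intro y
        rw [← hg]
        exact (AlgEquiv.restrictNormal_commutes g M y).symm
      have hval2 : F (act g x) ≠ 0 := by
        simp only [hF]
        rw [((hNOR p K M M₂ B.S).2.1 g (δ ^ e) hgc x).1, isP_pow hP, mul_comm]
        exact he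
      obtain ⟨w, hw, z, hz1, hz2⟩ := exists_prime (up M₂ B.S) hprin _ hgh hgu _ hval2
      refine ⟨w.asIdeal, w.ne_bot, ?_, ?_, fun h => absurd h hDne⟩
      · rw [hD0]
        exact (hIDN p K M₂ B.S B.abp).2.2 (bel K w) ∅ (bel_notMem hw) (Finset.notMem_empty _) w rfl
      · rw [c5 w z hz1]
        exact hz2
  · intro q hq h0 W hWq hWf
    obtain ⟨x, hx⟩ := hprin (Finsupp.single W 1)
    have hdiv : ∀ W' ∉ up M₂ B.S, (W' = W → ordv W' (x : M₂) = 1) ∧
        (W' ≠ W → ordv W' (x : M₂) = 0) := by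
      intro W' hW'
      rw [hx W' hW']
      constructor
      · rintro rfl
        exact Finsupp.single_eq_same
      · intro h
        exact Finsupp.single_eq_of_ne h
    rw [c5 W x hdiv]
    have h1 := (hNOR p K M₁ M₂ B.S).2.2.2 q W (bel M₁ W) hq.1 hWq rfl hWf x hdiv
    have hDv' : ∀ v ∈ D, v ∈ B.Vis ∧ y v ≠ 0 := fun v hv => ⟨hDv v hv, (hD v hv).2⟩
    have h2 := (v_smf p K M K₁ M₁ ε δ P hs B n E tr htr β D y hDv' hne hf).2.2.2 q (hsub hq) h0
      (bel M₁ W) (bel_of hWq rfl) (free_below (M := M₁) (w := bel M₁ W) rfl hWf)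
    obtain ⟨-, -, -, -, d5⟩ := hCHR p M₁ (up M₁ B.S) B.prMK (mD p M₁ B.S D)
      (mD_ne_bot hIDN B.S D B.abp) (gF B E tr β D y) (gF_hom tr hP)
      (fun x hx => by
        unfold gF
        rw [fF_unit hNRM hs B E β D y hP hf _ ((hNOR p K M M₁ B.S).1 x hx), map_zero])
      (fun x α hx hα => gF_ray hNOR hLOG hs B E tr β D y hDv x α hx hα)
    have h3 := d5 (bel M₁ W) (nrm M₁ M₂ x) h1
    have h4 : idl (up M₁ B.S) (gF B E tr β D y) (bel M₁ W).asIdeal = 0 := h2
    rw [h3] at h4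
    simp only [hF]
    have h5 : nrm M M₂ x = nrm M M₁ (nrm M₁ M₂ x) := Units.ext (by
      show Algebra.norm M (x : M₂) = Algebra.norm M (Algebra.norm M₁ (x : M₂))
      rw [Algebra.norm_norm])
    rw [h5]
    exact h4

end Pool.Agent.Helper27.PB
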