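import Pool.Agent.Helper27.PB.Goals

/-!
# The zigzag chain: assembly
-/

open scoped ENNReal
open Finset

namespace Pool.Agent.Helper27.PB

open Pool.Agent.Helper92.Eps hiding Bas
open Pool.Agent.Helper99.ZZ

variable {B : Type} {D : ℕ}

theorem ivp {P : Prop} (h : P) (x : ℝ≥0∞) : iv P x = x := by
  unfold iv
  rw [if_pos h]

theorem ivn {P : Prop} (h : ¬ P) (x : ℝ≥0∞) : iv P x = 0 := by
  unfold iv
  rw [if_neg h]

theorem H_app (A : Alph B D) (l m : List B) : A.H (l ++ m) = A.H l + A.H m := by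
  simp [Alph.H]

theorem H_rbl {A : Alph B D} {rbb : B → B} (hr : Rev A rbb) (l : List B) :
    A.H (rbl rbb l) = A.H l := by
  have h : (A.h ∘ rbb) = A.h := funext hr.h
  simp [Alph.H, rbl, List.sum_reverse, h]

theorem S_zero {A : Alph B D} (h : Ren A) : A.S 0 = 1 :=
  le_antisymm (by simpa using h.S_le 0) (h.S_one 0)

theorem S_ne_top {A : Alph B D} (h : Ren A) (T : ℕ) : A.S T ≠ ⊤ :=
  ne_top_of_le_ne_top (by finiteness) (h.S_le T)

theorem S_ne_zero {A : Alph B D} (h : Ren A) (T : ℕ) : A.S T ≠ 0 :=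
  (lt_of_lt_of_le one_pos (h.S_one T)).ne'

theorem BA.mono {A : Alph B D} {γ K K' : ℝ≥0∞} {Jm r : ℕ} {G : List B → ℝ≥0∞}
    (h : BA A γ Jm r G K) (hK : K ≤ K') : BA A γ Jm r G K' :=
  fun t ht => (h t ht).trans (by gcongr)

theorem BC.mono {A : Alph B D} {K K' : ℝ≥0∞} {r : ℕ} {G : List B → ℝ≥0∞}
    (h : BC A r G K) (hK : K ≤ K') : BC A r G K' :=
  ⟨h.1.trans hK, h.2.trans (by gcongr)⟩

theorem DepJ.depR {j r : ℕ} (h : DepJ j r) : DepR r := by
  rcases h with h | ⟨ρ, h, -⟩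
  · exact Or.inl h
  · exact Or.inr ⟨ρ, h⟩

theorem DepJ.log {j r : ℕ} (h : DepJ j r) : Nat.log 2 r ≤ j := by
  rcases h with h | ⟨ρ, h, h2⟩
  · subst h
    simp
  · rw [h, Nat.log_pow (by norm_num)]
    omega

theorem DepJ.lt {j r : ℕ} (h : DepJ j r) : r = 0 ∨ r < 2 ^ j := by
  rcases h with h | ⟨ρ, h, h2⟩
  · exact Or.inl h
  · right
    rw [h]
    exact Nat.pow_lt_pow_right (by norm_num) (by omega)

/-- The legs of an admissible chain are higher than the depths of the corners. -/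
theorem chH {A : Alph B D} {rbb : B → B} (hr : Rev A rbb) {Jm : ℕ} :
    ∀ (ds : List LG) (r : ℕ), Chn Jm r ds → ChH A (rbl rbb) (okG A) LG.r r ds := by
  intro ds
  induction ds with
  | nil => intro r _; trivial
  | cons d ds ih =>
    rintro r ⟨h1, h2⟩
    refine ⟨fun l hl => ?_, ih _ h2⟩
    rw [H_rbl hr]
    have h3 : 2 ^ d.j ≤ A.H l := h1.lo.trans hl.1
    refine ⟨?_, ?_⟩
    · rcases DepJ.lt (show DepJ d.j r from h1.r1) with h | h
      · exact Or.inl h
      · exact Or.inr (h.trans_le h3)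
    · rcases DepJ.lt (show DepJ d.j d.r from h1.r2) with h | h
      · exact Or.inl h
      · exact Or.inr (h.trans_le h3)

theorem RF_zero {A : Alph B D} {rb : List B → List B} {d : LG} {G : List B → ℝ≥0∞} {p : List B}
    (h : d.lo + d.I ≤ A.H p) : RF A rb (okG A) LG.r d G p = 0 := by
  unfold RF
  rw [ENNReal.tsum_eq_zero]
  intro t
  apply ivn
  rintro ⟨-, h2⟩
  rw [H_app] at h2
  omega

/-- Kernel `A`: the constant of one step. -/
theorem cst_A (A : Alph B D) {γ K : ℝ≥0∞} (hγ : 1 ≤ γ) (r : ℕ) (d : LG) :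
    16 * K * (Vm A d + A.S d.r * A.S d.I / A.S (2 ^ d.j)) / A.S r +
      16 * K * (A.S d.I + A.S d.r) * γ ^ (d.j - Nat.log 2 r) / A.S (2 ^ d.j) ≤
    16 * K * Psi A γ r d := by
  unfold Psi Vm
  have h1 : A.S d.r * A.S d.I / A.S (2 ^ d.j) ≤
      γ ^ (d.j - Nat.log 2 d.r) * A.S d.r * A.S d.I / A.S (2 ^ d.j) := by
    gcongr
    calc A.S d.r = 1 * A.S d.r := (one_mul _).symm
      _ ≤ _ := by
        gcongr
        exact one_le_pow₀ hγ
  refine le_trans (add_le_add ?_ ?_) (mul_add (16 * K) _ _).ge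
  · rw [mul_div_assoc]
    gcongr
  · rw [mul_assoc (16 * K), mul_div_assoc]
    gcongr
    exact le_self_add

/-- Kernel `C`: the constant of one step. -/
theorem cst_C (A : Alph B D) {γ K C : ℝ≥0∞} (hγ : 1 ≤ γ) (r : ℕ) (d : LG) :
    C * K * (Vm A d + γ ^ (d.j - Nat.log 2 d.r) * A.S d.r * A.S d.I / A.S (2 ^ d.j)) / A.S r +
      C * K * ((A.S d.I + γ ^ (d.j - Nat.log 2 d.r) * A.S d.r) / A.S (2 ^ d.j)) ≤
    C * K * Psi A γ r d := by
  unfold Psi Vm
  refine le_trans (add_le_add ?_ ?_) (mul_add (C * K) _ _).ge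
  · rw [mul_div_assoc]
  · gcongr
    set a := γ ^ (d.j - Nat.log 2 d.r)
    set b := γ ^ (d.j - Nat.log 2 r)
    have ha : 1 ≤ a := one_le_pow₀ hγ
    calc A.S d.I + a * A.S d.r ≤ A.S d.I * a + A.S d.r * a := by
          rw [mul_comm a]
          gcongr
          calc A.S d.I = A.S d.I * 1 := (mul_one _).symm
            _ ≤ _ := by gcongr
      _ = (A.S d.I + A.S d.r) * a := (add_mul _ _ _).symm
      _ ≤ _ := by
          gcongr
          exact le_add_self

theorem chnv_of (hCSAV : CSAV_stmt) (hCSC : CSC_stmt) (hBAS : BASV_stmt) (hSA : STEPA_stmt)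
    (hSC : STEPC_stmt) (hLA : LEGA_stmt) (hLC : LEGC_stmt) (hSQ : SQRV_stmt) : CHNV_stmt := by
  intro τ γ hτ hγ hγτ C Q θ hC hQ hθ
  have hγt : γ ≠ ⊤ := (hγτ.trans_le le_top).ne
  obtain ⟨Θ, C1, hΘ1, hΘt, hC1, hC1t, hA⟩ := hCSAV C Q θ γ hC hQ hθ hγ hγt
  obtain ⟨Cc, Qc, hCc, hQc, hC'⟩ := hCSC C 1 Θ hC le_rfl hΘ1 hΘt
  obtain ⟨Ca, hCa, hSA'⟩ := hSA τ γ hτ hγ.le hγτ
  obtain ⟨Cl, hCl, hLC'⟩ := hLC τ γ hτ hγ.le hγτ
  obtain ⟨Cs, hCs⟩ : ∃ Cs : ℝ≥0∞, Cs = 2 + 16 * (Ca * C1) + 4 * Cc * Cl := ⟨_, rfl⟩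
  have hCst : Cs ≠ ⊤ := by rw [hCs]; finiteness
  have hCs2 : 2 ≤ Cs := by rw [hCs, add_assoc]; exact le_self_add
  refine ⟨Cs, hCst, le_trans (by norm_num) hCs2, ?_⟩
  intro B D A E rbb hB hr Jm hE ds hds
  have cal := hB.cal
  have ren := hB.ren
  have main : ∀ (ds : List LG) (r : ℕ), DepR r → Nat.log 2 r ≤ Jm → Chn Jm r ds →
      BA A γ Jm r (GV A E (rbl rbb) (okG A) LG.r Θ ds true r)
        (2 * Cs ^ ds.length * PV A γ r ds) ∧
      BC A r (GV A E (rbl rbb) (okG A) LG.r Θ ds false r)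
        (2 * Cs ^ ds.length * PV A γ r ds) := by
    intro ds
    induction ds with
    | nil =>
      intro r hr' _ _
      obtain ⟨h1, h2⟩ := hBAS A τ γ hB hγ.le Jm r hr'
      refine ⟨BA.mono h1 ?_, BC.mono h2 ?_⟩
      · simp [PV]
      · simp [PV]
    | cons d ds ih =>
      rintro r hr' hlog ⟨hd, hds⟩
      have hd1 : DepJ d.j r := hd.r1
      have hd2 : DepJ d.j d.r := hd.r2
      have hlog2 : Nat.log 2 d.r ≤ Jm := by
        have := hd2.log
        have := hd.jm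
        omega
      obtain ⟨ihA, ihC⟩ := ih d.r hd2.depR hlog2 hds
      obtain ⟨K, hK⟩ : ∃ K : ℝ≥0∞, K = 2 * Cs ^ ds.length * PV A γ d.r ds := ⟨_, rfl⟩
      rw [← hK] at ihA ihC
      have hgoal : 2 * Cs ^ (d :: ds).length * PV A γ r (d :: ds) = Cs * K * Psi A γ r d := by
        rw [hK, List.length_cons, pow_succ]
        show 2 * (Cs ^ ds.length * Cs) * (Psi A γ r d * PV A γ d.r ds) = _
        ring
      rw [hgoal]
      constructor
      · obtain ⟨s1, s2⟩ := hLA A rbb τ hB hr Jm r d _ K hd ihC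
        have h := hSA' A E hB Jm r d.j Θ C1 _ _ _ hd1 hd.jm (hA A E cal ren hB.anti Jm hE r hr' hlog)
          s1 s2 (fun p _ hp => RF_zero (by have := hd.hi; omega))
        refine BA.mono (K := Ca * C1 * (16 * K * (Vm A d + A.S d.r * A.S d.I / A.S (2 ^ d.j)) / A.S r +
          16 * K * (A.S d.I + A.S d.r) * γ ^ (d.j - Nat.log 2 r) / A.S (2 ^ d.j))) h ?_
        calc _ ≤ Ca * C1 * (16 * K * Psi A γ r d) := by
              gcongr
              exact cst_A A hγ.le r d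
          _ = (16 * (Ca * C1)) * K * Psi A γ r d := by ring
          _ ≤ Cs * K * Psi A γ r d := by
              gcongr
              rw [hCs, add_assoc, add_left_comm]
              exact le_self_add
      · obtain ⟨s1, s2⟩ := hLC' A rbb hB hr Jm r d _ K hd ihA
        have hcc := hC' A E cal ren hB.anti hE.evt (Nat.log 2 r) (fun ρ hρ => by
          have := hE.k1 ρ (hρ.trans hlog)
          simpa using this) r (by
          rcases hr' with h | ⟨ρ, h⟩
          · exact Or.inl h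
          · refine Or.inr ⟨ρ, ?_, h⟩
            rw [h, Nat.log_pow (by norm_num)])
        rw [show dp (Nat.log 2 r) r = 0 by unfold dp; omega, pow_zero, mul_one] at hcc
        have h := hSC A E τ hB r d.j Θ Cc _ _ _ hd1 hcc s1 s2
        refine BC.mono (K := 4 * Cc * (Cl * K * (Vm A d + γ ^ (d.j - Nat.log 2 d.r) * A.S d.r * A.S d.I /
          A.S (2 ^ d.j)) / A.S r +
          Cl * K * ((A.S d.I + γ ^ (d.j - Nat.log 2 d.r) * A.S d.r) / A.S (2 ^ d.j)))) h ?_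
        calc _ ≤ 4 * Cc * (Cl * K * Psi A γ r d) := by
              gcongr
              exact cst_C A hγ.le r d
          _ = (4 * Cc * Cl) * K * Psi A γ r d := by ring
          _ ≤ Cs * K * Psi A γ r d := by
              gcongr
              rw [hCs]
              exact le_add_self
  obtain ⟨hmA, hmC⟩ := main ds 0 (Or.inl rfl) (by simp) hds
  obtain ⟨K, hK⟩ : ∃ K : ℝ≥0∞, K = 2 * Cs ^ ds.length * PV A γ 0 ds := ⟨_, rfl⟩
  rw [← hK] at hmA hmC
  have hS0 := S_zero ren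
  have e1 : GV A E (rbl rbb) (okG A) LG.r Θ ds true 0 [] ≤ K := by
    have h := hmA 0 (by simp)
    unfold GS at h
    rw [if_pos rfl] at h
    have h0 : PB.Cl A 0 0 ([] : List B) := Or.inl ⟨rfl, by simp [Alph.H]⟩
    simpa [hS0, ivp h0] using h
  have e2 : GV A E (rbl rbb) (okG A) LG.r Θ ds false 0 [] ≤ K := by
    have h := hmC.1
    unfold GS at h
    rw [if_pos rfl] at h
    have h0 : ¬ Tall A 0 ([] : List B) := fun h => absurd h.1 (by omega)
    simpa [ivp h0] using h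
  have h := hSQ A E (rbl rbb) (okG A) LG.r cal hE.evt Θ hΘ1.le hΘt ds 0 [] (chH hr ds 0 hds)
    (Or.inl rfl)
  have e3 : sl A 0 (rbl rbb []) = [] := by
    unfold sl
    rw [if_pos rfl]
  rw [e3] at h
  have h2 : ZS A E (rbl rbb) (okG A) LG.r ds 0 [] ^ 2 ≤ K ^ 2 := by
    rw [sq K]
    exact h.trans (mul_le_mul' e1 e2)
  have h3 : ZS A E (rbl rbb) (okG A) LG.r ds 0 [] ≤ K :=
    (ENNReal.pow_le_pow_left_iff two_ne_zero).1 h2
  refine h3.trans ?_
  rw [hK, pow_succ, mul_comm (Cs ^ ds.length) Cs]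
  gcongr

end Pool.Agent.Helper27.PB
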