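import Pool.Agent.Helper27.PB.Asm
import Pool.Agent.Helper96.DD.Defs
import Pool.Agent.Helper99.ZZ.Zig
import Pool.Agent.Helper23.DD.Fin

/-!
# The chain bound for the alphabet of the irreducible bridges
-/

open scoped ENNReal
open Finset

namespace Pool.Agent.Helper27.PB

open Pool.Agent.Helper92.Eps hiding Bas
open Pool.Agent.Helper99.ZZ
open Pool.Agent.Helper98.Saw (Blk)
open Pool.Agent.Helper92.Poly (gsh)
open Pool.Agent.Helper23.KP (AP RegS)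
open Pool.Agent.Helper96.KP (Good DG DG')
open Pool.Agent.Helper22.FP (rb1)
open Pool.Agent.Helper96.DD (E0)

variable {B : Type} {D : ℕ}

/-- The chain bound with the corner relation of `Helper96.DD` (no condition at depth `0`). -/
def VE1_stmt : Prop := ∀ β : ℝ, 0 < β → ∀ γ : ℝ≥0∞, 1 < γ → γ < ENNReal.ofReal ((2 : ℝ) ^ β) →
  ∃ (C : ℝ≥0∞) (n0 : ℕ → ℕ), C ≠ ⊤ ∧ 1 ≤ C ∧ ∀ (n Jm : ℕ) (A : Alph (Option Blk) n),
  Good n A → (∀ J, RegS A β J) → n0 Jm ≤ n → ∀ ds : List LG, Chn Jm 0 ds →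
  ZS A (E0 (AP A (gsh n) (DG n A) (DG' n A))) (rbl rb1) (okG A) LG.r ds 0 [] ≤
    C ^ (ds.length + 1) * PV A γ 0 ds

theorem ve1_of_ve (h : Pool.Agent.Helper23.DD.VE_stmt) : VE1_stmt := by
  intro β hβ γ hγ _
  obtain ⟨C, n0, hC, hC1, h'⟩ := h β hβ γ hγ
  refine ⟨C, n0, hC, hC1, fun n Jm A hA hreg hn ds hds => ?_⟩
  refine (h' n Jm A hA hreg hn ds hds).trans ?_
  exact mul_le_mul' (pow_le_pow_right' hC1 (Nat.le_succ _)) le_rfl

theorem evt_e0 {E : ℕ → List B → List B → Prop} (h : Evt E) : Evt (E0 E) where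
  mono := fun {T' T p1 p2} hT he => by
    rcases Nat.eq_zero_or_pos T' with h0 | h0
    · exact Or.inl h0
    · rcases he with he | he
      · omega
      · exact Or.inr (h.mono hT he)
  pre1 := fun {T p1 p2 q} hq he => he.imp id (h.pre1 hq)
  pre2 := fun {T p1 p2 q} hq he => he.imp id (h.pre2 hq)

theorem e0_pow (E : ℕ → List B → List B → Prop) (r : ℕ) : E0 E (2 ^ r) = E (2 ^ r) := by
  funext p1 p2
  have : (2 : ℕ) ^ r ≠ 0 := by positivity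
  simp [E0]

theorem crn_e0 {A : Alph B D} {E : ℕ → List B → List B → Prop} {C Q θ : ℝ≥0∞} {Jm : ℕ}
    (h : Crn A E C Q θ Jm) : Crn A (E0 E) C Q θ Jm where
  evt := evt_e0 h.evt
  k1 := fun ρ hρ => by simpa only [e0_pow] using h.k1 ρ hρ
  k3 := fun J hJ => by
    have h := h.k3 J hJ
    intro ρ i lo h1 h2 h3
    simpa only [e0_pow] using h ρ i lo h1 h2 h3

theorem ve1_of (hKK : KK_stmt) (hCH : CHNV_stmt)
    (hrev : ∀ (n : ℕ) (A : Alph (Option Blk) n), Good n A → Rev A rb1) : VE1_stmt := by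
  intro β hβ γ hγ hγβ
  obtain ⟨C, Q, θ, n0, hC, hQ, hθ, h⟩ := hKK β hβ
  obtain ⟨C', hC', hC1, h'⟩ := hCH _ γ ENNReal.ofReal_ne_top hγ hγβ C Q θ hC hQ hθ
  refine ⟨C', n0, hC', hC1, fun n Jm A hA hreg hn ds hds => ?_⟩
  obtain ⟨h1, h2⟩ := h n Jm A hA hreg hn
  exact h' A _ rb1 h1 (hrev n A hA) Jm (crn_e0 h2) ds hds

theorem v_of (hKK : KK_stmt) (hCH : CHNV_stmt)
    (hrev : ∀ (n : ℕ) (A : Alph (Option Blk) n), Good n A → Rev A rb1) : V_stmt := by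
  intro β hβ γ hγ hγβ
  obtain ⟨C, Q, θ, n0, hC, hQ, hθ, h⟩ := hKK β hβ
  obtain ⟨C', hC', hC1, h'⟩ := hCH _ γ ENNReal.ofReal_ne_top hγ hγβ C Q θ hC hQ hθ
  refine ⟨C', n0, hC', hC1, fun n Jm A hA hreg hn ds hds => ?_⟩
  obtain ⟨h1, h2⟩ := h n Jm A hA hreg hn
  exact h' A _ rb1 h1 (hrev n A hA) Jm h2 ds hds

theorem rev_rb1 (hRB : RB_stmt) (n : ℕ) (A : Alph (Option Blk) n) (hA : Good n A) : Rev A rb1 := by
  obtain ⟨h, -⟩ := hRB n A hA.isAA hA.fac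
  exact ⟨fun b => (h b).1, fun b => (h b).2.1, fun b => (h b).2.2⟩

end Pool.Agent.Helper27.PB
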