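import Pool.Agent.Helper27.PB.FinE
import Pool.Agent.Helper2.PB.CSAV
import Pool.Agent.Helper38.PB.LEGC
import Pool.Agent.Helper83.PB.BASV
import Pool.Agent.Helper5.PB.STEPC
import Pool.Agent.Helper69.PB.STEPA
import Pool.Agent.Helper58.PB.SQRV
import Pool.Agent.Helper37.PB.WIN
import Pool.Agent.Helper42.PB.KK
import Pool.Agent.Helper93.ZZ.CSC
import Pool.Agent.Helper22.DD.Inst

/-!
# The chain bound: final form
-/

open scoped ENNReal
open Finset

namespace Pool.Agent.Helper27.PB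

open Pool.Agent.Helper92.Eps hiding Bas
open Pool.Agent.Helper99.ZZ
open Pool.Agent.Helper98.Saw (Blk)
open Pool.Agent.Helper92.Poly (gsh)
open Pool.Agent.Helper23.KP (AP RegS)
open Pool.Agent.Helper96.KP (Good DG DG')
open Pool.Agent.Helper22.FP (rb1)

variable {B : Type} {D : ℕ}

theorem psi_mono {A : Alph B D} {γ γ' : ℝ≥0∞} (h : γ ≤ γ') (r : ℕ) (d : LG) :
    Psi A γ r d ≤ Psi A γ' r d := by
  unfold Psi
  gcongr

theorem pv_mono {A : Alph B D} {γ γ' : ℝ≥0∞} (h : γ ≤ γ') :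
    ∀ (ds : List LG) (r : ℕ), PV A γ r ds ≤ PV A γ' r ds := by
  intro ds
  induction ds with
  | nil => intro r; exact le_rfl
  | cons d ds ih =>
    intro r
    exact mul_le_mul' (psi_mono h r d) (ih d.r)

theorem chnv (hLA : LEGA_stmt) : CHNV_stmt :=
  chnv_of (Helper2.PB.CSAV Helper35.ZZ.CHP Helper52.ZZ.GSB)
    (Helper93.ZZ.CSC Helper35.ZZ.CHP Helper52.ZZ.GSB) (Helper83.PB.BASV Helper52.ZZ.GSB)
    (Helper69.PB.STEPA Helper52.ZZ.GSB) (Helper5.PB.STEPC Helper52.ZZ.GSB) hLA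
    (Helper38.PB.LEGC Helper37.PB.WIN Helper12.ZZ.DEC Helper52.ZZ.GSB) Helper58.PB.SQRV

theorem ve1 (hLA : LEGA_stmt) : VE1_stmt :=
  ve1_of Helper42.PB.KK (chnv hLA) (fun _ _ hA => Helper23.DD.rev_rb1 hA)

/-- The chain bound without regularity hypotheses. -/
theorem v0_of_legA (hLA : LEGA_stmt) : Helper23.DD.V0_stmt := by
  intro γ hγ
  obtain ⟨β, hβ, -, hreg⟩ := Helper22.DD.regS_all
  have hτ : 1 < ENNReal.ofReal ((2 : ℝ) ^ β) := by
    rw [← ENNReal.ofReal_one]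
    exact (ENNReal.ofReal_lt_ofReal_iff (by positivity)).2
      (Real.one_lt_rpow (by norm_num) hβ)
  obtain ⟨γ', h1, h2⟩ := exists_between (lt_min hγ hτ)
  obtain ⟨C, n0, hC, hC1, h⟩ := ve1 hLA β hβ γ' h1 (h2.trans_le (min_le_right _ _))
  refine ⟨C, hC, hC1, fun Jm => ⟨n0 Jm, fun n hn A hA ds hds => ?_⟩⟩
  refine (h n Jm A hA (hreg n A hA) hn ds hds).trans ?_
  exact mul_le_mul' le_rfl (pv_mono (h2.le.trans (min_le_left _ _)) ds 0)

end Pool.Agent.Helper27.PB
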