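import Pool.Agent.Helper27.PB.Defs
import Pool.Agent.Helper98.K3.Inst

/-!
# The zigzag chain with depths below the scale of the legs: exact statements of the packets

As `Pool.Agent.Helper99.ZZ.Chain` (`w = 2^J` there), but the reference scale of the kernel at a corner of depth `r`
is `log2 r` itself, and the tall ends are distributed to classes: a stopped list `p` at depth `r` is in the
class `0` if `H p ≤ 2 r` (not tall), and in the class `t ≥ 1` if `2^t r < H p ≤ 2^(t+1) r`.  For `r = 0` the only stopped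
list is `[]`, it is in the class `0`, and `Tall A 0 p` is false.
-/

open scoped ENNReal
open Finset

namespace Pool.Agent.Helper27.PB

open Pool.Agent.Helper92.Eps hiding Bas
open Pool.Agent.Helper99.ZZ
open Pool.Agent.Helper98.Saw (Blk)
open Pool.Agent.Helper92.Poly (gsh)
open Pool.Agent.Helper23.KP (AP RegS)
open Pool.Agent.Helper96.KP (Good DG DG')
open Pool.Agent.Helper22.FP (rb1)

variable {B : Type} {D : ℕ}

/-- The class `t` of a stopped list `p` at depth `r`. -/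
def Cl (A : Alph B D) (r t : ℕ) (p : List B) : Prop :=
  (t = 0 ∧ A.H p ≤ 2 * r) ∨ (1 ≤ t ∧ 2 ^ t * r < A.H p ∧ A.H p ≤ 2 ^ (t + 1) * r)

/-- Possible depths. -/
def DepR (r : ℕ) : Prop := r = 0 ∨ ∃ ρ, r = 2 ^ ρ

/-- Depths of the corners next to a leg of height at least `2^j`. -/
def DepJ (j r : ℕ) : Prop := r = 0 ∨ ∃ ρ, r = 2 ^ ρ ∧ ρ + 5 ≤ j

/-- Facts on the masses; `τ` is the growth factor of `S`. -/
structure Bas (A : Alph B D) (τ : ℝ≥0∞) : Prop where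
  cal : Calc A
  ren : Ren A
  anti : ∀ n, RenAnti A n
  gr : ∀ ρ t : ℕ, τ ^ t * A.S (2 ^ ρ) ≤ A.S (2 ^ (ρ + t))

/-- The inputs at the corners. -/
structure Crn (A : Alph B D) (E : ℕ → List B → List B → Prop) (C Q θ : ℝ≥0∞) (Jm : ℕ) : Prop where
  evt : Evt E
  k1 : K1H A E Jm C 1
  k3 : ∀ J ≤ Jm, K3H A E J C Q θ

/-- PACKET KK.  `Bas`: `hA.one.cal`, `hA.one.ren`, `hA.one.anti`; `gr` from `RegS A β (ρ + t)` with `m = t`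
(`2^(-β t) = ((2^β)^t)⁻¹`).  `Crn`: `evt` from `Helper49.ZZ.EVT`; `k1`: `Helper98.K3.k1` (`K1W_stmt`) with `ε = 1` at
`J = ρ` for each `ρ` (the exponent `J - ρ` is `0`); `k3`: `K3W_stmt`, proved in `Helper99/ZZ/Main.lean` (`Helper98.K3.k3` with
`klat`, `kslo`, `farr`, `MIRR`), at each `J ≤ Jm`, with `n0' Jm := ∑ J ∈ range (Jm + 1), n0 J`; monotone in `C`
(`K1H.mono`, `K3H.mono` of `Helper99/ZZ/Fin.lean`). -/
def KK_stmt : Prop := ∀ β : ℝ, 0 < β → ∃ (C Q θ : ℝ≥0∞) (n0 : ℕ → ℕ), C ≠ ⊤ ∧ Q ≠ ⊤ ∧ θ < 1 ∧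
  ∀ (n Jm : ℕ) (A : Alph (Option Blk) n), Good n A → (∀ J, RegS A β J) → n0 Jm ≤ n →
  Bas A (ENNReal.ofReal ((2 : ℝ) ^ β)) ∧ Crn A (AP A (gsh n) (DG n A) (DG' n A)) C Q θ Jm

/-! ### The corners -/

/-- The bound for the kernel `A` (`a = true`) at a corner of depth `r`: the mass of the classes
`t1`, `t2`, relative to `S r / (S (2^t1 r) S (2^t2 r))`. -/
def CAb (A : Alph B D) (E : ℕ → List B → List B → Prop) (Θ γ : ℝ≥0∞) (Jm r : ℕ)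
    (C1 : ℝ≥0∞) : Prop := ∀ t1 t2 : ℕ, Nat.log 2 r + t1 ≤ Jm → Nat.log 2 r + t2 ≤ Jm →
  GS A r (fun p1 => GS A r (fun p2 => iv (Cl A r t1 p1 ∧ Cl A r t2 p2)
    (ker A E (Nat.log 2 r) Θ true r p1 p2))) * (A.S (2 ^ t1 * r) * A.S (2 ^ t2 * r)) ≤
    C1 * γ ^ (t1 + t2) * A.S r

/-- PACKET CSAV (may assume CHP, GSB; model: `Pool.Agent.Helper75.ZZ.CSA`).  `r = 0`: only `t1 = t2 = 0`, and
`ker ≤ 1` (no tall ends), `S 0 = 1`.  `r = 2^ρ`, so `Nat.log 2 r = ρ`, weights `Θ^(ρ - i)`, `i` = scale of the start of the tall block.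
(nn) `t1 = t2 = 0`: `ker = iv E`, `K1H` at `ρ`: `P(E) S r ≤ C`.
(tn) `t1 = t ≥ 1`, `t2 = 0`: `∑_{i ≤ ρ} Θ^(ρ-i) M_i`, `M_i` = mass of `E`, `Nat.log 2 (H p1.dropLast) = i`, class `t` (if `H p1.dropLast = 0`
then `i = 0`).  First bound, `K3H` at `J = ρ + t`, `lo = 2^(ρ+t)` (window `(lo, lo + 2^J] = (2^t r, 2^(t+1) r]`):
`M_i S (2^t r) ≤ C Q^t θ^(t+ρ-i) ≤ C Q^t θ^(ρ-i)`.  Second bound: `p1 = q1 ++ [b]` (GSB (3)), `c = H q1 ∈ Sc i`,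
`E r p1 p2 → E (c - 1) q1 (fpp (c - 1) p2)`, the sum over `b` is `≤ Fb (2^t r - r) ≤ Fb (2^(t-1) r) ≤ 1 / S (2^(t-1) r) ≤ 2 / S (2^t r)`
(`R3`, `R7`), CHP with `J := Jm`, `b := 1`: `M_i S (2^t r) ≤ 2 (4 C + 2)`.
Sum over `k = ρ - i`: choose `N` with `Q' θ'^(N/2) ≤ 1` (`Q' = max 1 (2 Q)`, `θ' = max θ (1/4)`), then `Θ > 1` with `Θ^(2N) ≤ γ` and
`Θ θ'^(1/2) < 1` (and `Θ ≤ 2`).  `k ≤ N t`: at most `C (N t + 1) Θ^(N t) ≤ C' γ^t` (`Θ^(N t) ≤ γ^(t/2)`, and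
`(N t + 1) γ^(-t/2)` is bounded).  `k > N t`: `C Q^t ∑_{k > N t} (Θ θ)^k ≤ C' Q^t θ'^(N t / 2) ≤ C'`.
So `M S (2^t r) ≤ C' γ^t`; multiply by `S r`.
(nt) symmetric (second parts of `K3H` and CHP).
(tt) `t1, t2 ≥ 1`, `t = max t1 t2`: the weight is `Θ^(ρ-i)`, `i` = the smaller scale.  First bound: `K3H`, third part, at `J = ρ + t`,
`lo = 2^(ρ+t1)`, `lo' = 2^(ρ+t2)`: `M_i S (2^t r) ≤ C Q^t θ^(ρ-i)`, and `S (2^(min) r) ≤ 2^t S r` (`R7`): `M_i S S ≤ C (2 Q)^t θ^(ρ-i) S r`.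
Second bound: say the smaller start is `c = H q1`, `c ≤ H q2 ≤ r`: `q2 = s ++ m`, `s = fpp (c - 1) q2`, the mass of the `m` is
`≤ S r`, the two tall blocks have mass `≤ 2 / S (2^t1 r)`, `2 / S (2^t2 r)`: `M_i S S ≤ 8 (4 C + 2) S r` (two orders).  Sum over
`i` as in (tn): `≤ C' γ^t S r ≤ C' γ^(t1 + t2) S r`. -/
def CSAV_stmt : Prop := ∀ C Q θ γ : ℝ≥0∞, C ≠ ⊤ → Q ≠ ⊤ → θ < 1 → 1 < γ → γ ≠ ⊤ →
  ∃ Θ C1 : ℝ≥0∞, 1 < Θ ∧ Θ ≠ ⊤ ∧ 1 ≤ C1 ∧ C1 ≠ ⊤ ∧ ∀ {B : Type} {D : ℕ} (A : Alph B D)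
  (E : ℕ → List B → List B → Prop), Calc A → Ren A → (∀ n, RenAnti A n) → ∀ Jm : ℕ,
  Crn A E C Q θ Jm → ∀ r, DepR r → Nat.log 2 r ≤ Jm → CAb A E Θ γ Jm r C1

/-! ### Bounds of the rest of the chain -/

/-- Bound of the rest of the chain, next kernel `A`. -/
def BA (A : Alph B D) (γ : ℝ≥0∞) (Jm r : ℕ) (G : List B → ℝ≥0∞) (K : ℝ≥0∞) : Prop :=
  ∀ t : ℕ, Nat.log 2 r + t ≤ Jm →
    GS A r (fun p => iv (Cl A r t p) (G p)) * A.S (2 ^ t * r) ≤ K * γ ^ t * A.S r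

/-- Bound of the rest of the chain, next kernel `C`. -/
def BC (A : Alph B D) (r : ℕ) (G : List B → ℝ≥0∞) (K : ℝ≥0∞) : Prop :=
  GS A r (fun p => iv (¬ Tall A r p) (G p)) ≤ K ∧
  ∑ c ∈ range (r + 1), A.RR c (fun q => ⨆ b, iv (Tall A r (q ++ [b])) (G (q ++ [b]))) ≤
    K * A.S r

/-- PACKET BASV (may assume GSB; model: `Pool.Agent.Helper85.ZZ.BAS`).  `BA`: `t = 0`: the mass is `≤ 1` and `2^0 r = r`.  `t ≥ 1`: for
`r = 0` the class is empty (`0 < H []` is false); `r ≥ 1`: `GG_last`: mass `≤ ∑_{c ≤ r} u c Fb (2^t r - c) ≤ S r Fb (2^(t-1) r)`, and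
`Fb (2^(t-1) r) S (2^t r) ≤ 2 Fb (2^(t-1) r) S (2^(t-1) r) ≤ 2` (`R7`, `R3`).  `BC`: `GS 1 = 1`; `∑ RR c 1 = S r`. -/
def BASV_stmt : Prop := ∀ {B : Type} {D : ℕ} (A : Alph B D) (τ γ : ℝ≥0∞), Bas A τ → 1 ≤ γ →
  ∀ Jm r : ℕ, DepR r → BA A γ Jm r (fun _ => 1) 2 ∧ BC A r (fun _ => 1) 1

/-- PACKET STEPA (may assume GSB; model: `Pool.Agent.Helper12.ZZ.STPA`).  `r = 0`: only `p = []`, `t = 0`: `CAb` for `t1 = t2 = 0` gives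
`ker ≤ C1` (`S 0 = 1`), `F [] ≤ Ks`.  `r = 2^ρ`: each stopped `p2` is in exactly one class `t2` (`H p2 > r`).  Classes with
`t2 + 1 + ρ ≤ j - 2`: `F ≤ Ks`; `CAb`: the sum over `p1 ∈ Cl t1`, `p2 ∈ Cl t2` of `ker`, times `S (2^t1 r)`, is
`≤ C1 γ^(t1+t2) S r / S (2^t2 r) ≤ C1 γ^t1 (γ/τ)^t2` (`gr`): sum over `t2` at most `C C1 Ks γ^t1 = C C1 γ^t1 (Ks / S r) S r`.
Classes with `j - 2 ≤ t2 + ρ ≤ j + 1`: `F ≤ Kl`, `γ^t2 / S (2^t2 r) ≤ γ γ^(j-ρ) 4 / S (2^j)` (`R7`).  Higher classes: `F = 0`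
(`H p2 > 2^(j+2)`).  `j + 1 ≤ Jm`.  Work with multiplied forms or use `0 < S < ⊤` (`S_one`, `S_le`). -/
def STEPA_stmt : Prop := ∀ τ γ : ℝ≥0∞, τ ≠ ⊤ → 1 ≤ γ → γ < τ → ∃ C : ℝ≥0∞, C ≠ ⊤ ∧
  ∀ {B : Type} {D : ℕ} (A : Alph B D) (E : ℕ → List B → List B → Prop), Bas A τ →
  ∀ (Jm r j : ℕ) (Θ C1 Ks Kl : ℝ≥0∞) (F : List B → ℝ≥0∞), DepJ j r → j + 3 ≤ Jm →
  CAb A E Θ γ Jm r C1 → (∀ p, Stp A r p → A.H p ≤ 2 ^ (j - 2) → F p ≤ Ks) →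
  (∀ p, Stp A r p → F p ≤ Kl) → (∀ p, Stp A r p → 2 ^ (j + 2) < A.H p → F p = 0) →
  BA A γ Jm r (fun p1 => GS A r (fun p2 => ker A E (Nat.log 2 r) Θ true r p1 p2 * F p2))
    (C * C1 * (Ks / A.S r + Kl * γ ^ (j - Nat.log 2 r) / A.S (2 ^ j)))

/-- PACKET STEPC (may assume GSB; model: `Pool.Agent.Helper12.ZZ.STPC`).  `r = 0`: only `p = []`, `aa` gives `kr ≤ L` (`1 ≤ S`), `F [] ≤ Ks`,
`S 0 = 1`; the second part of `BC` is `0`.  `r = 2^ρ`, `2^(Nat.log 2 r) = r`: the kernel `ker .. false` does not depend on the last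
block of a tall end (`red p = p.dropLast`).  Split the inner sum: `p2` not tall: `H p2 ≤ 2 r ≤ 2^(j-2)`, `F ≤ Ks`; `p2 = q2 ++ [b]` tall: the
sum over `b` of `w b F (q2 ++ [b])` is at most `Ks Fb r + Ll ≤ Ks / S r + Ll`.  First part of `BC`: `aa`, `as`:
`L Ks / S r + L (Ks / S r + Ll)`.  Second part: `sa`, `ss`: `L Ks + L S r (Ks / S r + Ll)`. -/
def STEPC_stmt : Prop := ∀ {B : Type} {D : ℕ} (A : Alph B D) (E : ℕ → List B → List B → Prop)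
  (τ : ℝ≥0∞), Bas A τ → ∀ (r j : ℕ) (Θ L Ks Ll : ℝ≥0∞) (F : List B → ℝ≥0∞), DepJ j r →
  CSCb A E (Nat.log 2 r) Θ r L → (∀ p, Stp A r p → A.H p ≤ 2 ^ (j - 2) → F p ≤ Ks) →
  (∀ q, A.H q ≤ r → ∑' b, A.w b * iv (2 ^ (j - 2) < A.H (q ++ [b]) ∧ Tall A r (q ++ [b]))
    (F (q ++ [b])) ≤ Ll) →
  BC A r (fun p1 => GS A r (fun p2 => ker A E (Nat.log 2 r) Θ false r p1 p2 * F p2))
    (4 * L * (Ks / A.S r + Ll))

/-! ### The legs -/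

/-- PACKET WIN.  The sum over the lists by height: `∑' m, iv (H m = x) (W m) = u x` (`RR x 1`).  The heights `x` with
`lo ≤ X + x < lo + I` are in `[lo - X, lo - X + I)` (natural subtraction), `u` is non-increasing (`RenAnti.u_anti`):
`≤ ∑_{x < I} u x ≤ S I`, and `≤ I u a` if all these `x` are `≥ a`. -/
def WIN_stmt : Prop := ∀ {B : Type} {D : ℕ} (A : Alph B D), Calc A → Ren A →
  (∀ n, RenAnti A n) → ∀ lo I X : ℕ,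
  ∑' m : List B, iv (lo ≤ X + A.H m ∧ X + A.H m < lo + I) (A.W m) ≤ A.S I ∧
  ∀ a : ℕ, X + a ≤ lo →
    ∑' m : List B, iv (lo ≤ X + A.H m ∧ X + A.H m < lo + I) (A.W m) ≤ I * A.u a

/-- The main term of a leg. -/
noncomputable def Vm (A : Alph B D) (d : LG) : ℝ≥0∞ := d.I * A.u (2 ^ (d.j - 1))

/-- PACKET LEGA (may assume WIN, DEC, GSB).  `r' = d.r`.  `r' = 0`: no DEC, `RF p = G [] * ∑' t, iv (okG (p ++ t)) (W t)`, `G [] ≤ K`,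
WIN with `X = H p`, `a = 2^(j-1)` (`r = 0`: `p = []`, any `j`; `r ≥ 1`: `5 ≤ j`, `2^(j-2) + 2^(j-1) ≤ 2^j ≤ lo`).
`r' = 2^ρ'`, so `5 ≤ j`: DEC with `J := j - 5` (`r, r' ≤ 2^(j-5)`, `3 * 2^(j-5) < 2^j ≤ H l`).  First sum, `p'` not tall (`H p' ≤ 2 r' ≤ 2^(j-4)`): `∑ G ≤ K`; the sum over `m` by WIN with
`X = H p + H p'` (`H (rbl l) = H l`): `≤ Vm` if `H p ≤ 2^(j-2)`, `≤ S I` always.  `p' = q' ++ [b']` tall, `H q' ≤ r'` (GSB (3)):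
`G ≤ g q' := ⨆ b, ..` and `∑_c RR c g ≤ K S r'`.  `h b' ≤ 2^(j-3)` and `H p ≤ 2^(j-2)`: the sum over `m` is `≤ Vm`
(`2^(j-2) + 2^(j-5) + 2^(j-3) + 2^(j-1) ≤ 2^j`), the sum over `b'` is `≤ Fb r'` (`2 r' < H q' + h b'`), total `≤ K S r' Fb r' Vm ≤ K Vm`
(`R3`).  `h b' > 2^(j-3)`: the sum over `m` is `≤ S I`, over `b'` `≤ Fb (2^(j-3)) ≤ 1 / S (2^(j-3)) ≤ 8 / S (2^j)` (`R7`):
`≤ 8 K S r' S I / S (2^j)`.  For all `p`: `K S r' Fb r' S I ≤ K S I`.  Second sum: if it is not `0` then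
`H p + H q' = H l ≥ 2^j`, so `H p > 2^(j-2)`; in general it is `≤ ∑_c RR c g ≤ K S r'`. -/
def LEGA_stmt : Prop := ∀ {B : Type} {D : ℕ} (A : Alph B D) (rbb : B → B) (τ : ℝ≥0∞), Bas A τ →
  Rev A rbb → ∀ (Jm r : ℕ) (d : LG) (G : List B → ℝ≥0∞) (K : ℝ≥0∞), Adm Jm r d →
  BC A d.r G K →
  (∀ p, Stp A r p → A.H p ≤ 2 ^ (d.j - 2) → RF A (rbl rbb) (okG A) LG.r d G p ≤
    16 * K * (Vm A d + A.S d.r * A.S d.I / A.S (2 ^ d.j))) ∧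
  (∀ p, Stp A r p → RF A (rbl rbb) (okG A) LG.r d G p ≤ 16 * K * (A.S d.I + A.S d.r))

/-- PACKET LEGC (may assume WIN, DEC, GSB).  As LEGA, next kernel `A`: `r' = 2^ρ'`, stopped lists `p'` are distributed to
the classes `t'` (`H p' > r'`; `H p' ≤ H l < 2^(j+2)`, so `t' + ρ' ≤ j + 1 ≤ Jm`), and the sum over `p' ∈ Cl t'` of `G` is
`≤ K γ^t' S r' / S (2^t' r')`.  Short part, `H p ≤ 2^(j-2)`: classes with `t' + 1 + ρ' ≤ j - 3`: the sum over `m` is `≤ Vm`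
(`2^(j-2) + 2^(j-3) + 2^(j-1) ≤ 2^j`), and `γ^t' S r' / S (2^t' r') ≤ (γ/τ)^t'` (`gr`): `≤ C K Vm`.  The classes with
`j - 3 ≤ t' + ρ' ≤ j + 1`: the sum over `m` is `≤ S I`, `γ^t' / S (2^(t'+ρ')) ≤ γ γ^(j-ρ') 8 / S (2^j)`:
`≤ C K γ^(j-ρ') S r' S I / S (2^j)`.  The second sum of DEC is `0` (as in LEGA).  `r' = 0`: as in LEGA, without DEC, `G [] ≤ K` (`t' = 0`, `S 0 = 1`).
Long part, `q` fixed, `r ≥ 1` (`Tall A 0` is false), `r ≤ 2^(j-5)`: first sum: for each `b`: all classes, the sum over `m` is `≤ S I`, so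
`≤ C K S I`; the sum over `b` with `h b > 2^(j-2) - r ≥ 2^(j-3)` is `≤ Fb (2^(j-3)) ≤ 8 / S (2^j)`.  Second sum: `p = q ++ [b]`,
`p' = q' ++ [rbb b]`; put `b' = rbb b` (`w`, `h` are preserved): it is at most
`GS A r' (p'. iv (2^(j-1) < H p' ≤ 2^(j+2)) (G p'))` (GSB (3); `2^j ≤ H q + h b + H q'`, `H q, H q' ≤ 2^(j-5)`), so the classes
`j - 2 ≤ t' + ρ' ≤ j + 1`: `≤ C K γ^(j-ρ') S r' / S (2^j)`. -/
def LEGC_stmt : Prop := ∀ τ γ : ℝ≥0∞, τ ≠ ⊤ → 1 ≤ γ → γ < τ → ∃ C : ℝ≥0∞, C ≠ ⊤ ∧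
  ∀ {B : Type} {D : ℕ} (A : Alph B D) (rbb : B → B), Bas A τ → Rev A rbb →
  ∀ (Jm r : ℕ) (d : LG) (G : List B → ℝ≥0∞) (K : ℝ≥0∞), Adm Jm r d → BA A γ Jm d.r G K →
  (∀ p, Stp A r p → A.H p ≤ 2 ^ (d.j - 2) → RF A (rbl rbb) (okG A) LG.r d G p ≤
    C * K * (Vm A d + γ ^ (d.j - Nat.log 2 d.r) * A.S d.r * A.S d.I / A.S (2 ^ d.j))) ∧
  ∀ q, A.H q ≤ r → ∑' b, A.w b * iv (2 ^ (d.j - 2) < A.H (q ++ [b]) ∧ Tall A r (q ++ [b]))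
    (RF A (rbl rbb) (okG A) LG.r d G (q ++ [b])) ≤
    C * K * ((A.S d.I + γ ^ (d.j - Nat.log 2 d.r) * A.S d.r) / A.S (2 ^ d.j))

/-! ### The chain -/

section chain

variable {Δ : Type} (A : Alph B D) (E : ℕ → List B → List B → Prop) (rb : List B → List B)
  (ok : Δ → List B → Prop) (dep : Δ → ℕ)

/-- The chain sums with alternating kernels, as functions of the stopped list at the end of the
previous leg; the reference scale of the kernel is the scale of the corner. -/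
noncomputable def GV (Θ : ℝ≥0∞) : List Δ → Bool → ℕ → List B → ℝ≥0∞
  | [], _, _, _ => 1
  | d :: ds, a, r, p => GS A r (fun p' => ker A E (Nat.log 2 r) Θ a r p p' *
      RF A rb ok dep d (GV Θ ds (!a) (dep d)) p')

/-- The legs are higher than the depths of the corners at both ends. -/
def ChH : ℕ → List Δ → Prop
  | _, [] => True
  | r, d :: ds => (∀ l, ok d l → (r = 0 ∨ r < A.H l) ∧ (dep d = 0 ∨ dep d < A.H (rb l))) ∧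
      ChH (dep d) ds

end chain

/-- PACKET SQRV (may assume CSQ, KER, GSB; model: `Pool.Agent.Helper35.ZZ.SQR`, the same proof with `J = Nat.log 2 r` at each
corner).  Induction on `ds`.  `[]` is trivial.  `d :: ds`: CSQ with
`f l' = iv (ok d l' ∧ E r (rb l) l') (W l' ZS ds l')`,
`g l' = iv (ok d l') (ker true r (sl r (rb l)) (sl r l') W l' GV ds false (dep d) (sl (dep d) (rb l')))`, `h` the same with
`ker false`, `GV ds true`. -/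
def SQRV_stmt : Prop := ∀ {B Δ : Type} {D : ℕ} (A : Alph B D) (E : ℕ → List B → List B → Prop)
  (rb : List B → List B) (ok : Δ → List B → Prop) (dep : Δ → ℕ), Calc A → Evt E →
  ∀ Θ : ℝ≥0∞, 1 ≤ Θ → Θ ≠ ⊤ → ∀ (ds : List Δ) (r : ℕ) (l : List B), ChH A rb ok dep r ds →
  (r = 0 ∨ r < A.H (rb l)) →
  ZS A E rb ok dep ds r l ^ 2 ≤ GV A E rb ok dep Θ ds true r (sl A r (rb l)) *
    GV A E rb ok dep Θ ds false r (sl A r (rb l))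

/-- PACKET CHNV (assembly; helper27).  By induction on `ds`: `BA (GV ds true r) (2 C^|ds| PV r ds)` and
`BC (GV ds false r) (2 C^|ds| PV r ds)` (BASV; LEGA and STEPA, LEGC and STEPC).  For `r = 0`: `GV ds a 0 [] ≤ K`, SQRV. -/
def CHNV_stmt : Prop := ∀ τ γ : ℝ≥0∞, τ ≠ ⊤ → 1 < γ → γ < τ → ∀ C Q θ : ℝ≥0∞, C ≠ ⊤ → Q ≠ ⊤ →
  θ < 1 → ∃ C' : ℝ≥0∞, C' ≠ ⊤ ∧ 1 ≤ C' ∧ ∀ {B : Type} {D : ℕ} (A : Alph B D)
  (E : ℕ → List B → List B → Prop) (rbb : B → B), Bas A τ → Rev A rbb → ∀ Jm : ℕ,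
  Crn A E C Q θ Jm → ∀ ds : List LG, Chn Jm 0 ds →
  ZS A E (rbl rbb) (okG A) LG.r ds 0 [] ≤ C' ^ (ds.length + 1) * PV A γ 0 ds

end Pool.Agent.Helper27.PB
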