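import Pool.Agent.Helper42.PP.SMF

/-!
# Project B (MP_fc6b1e_nt): principal divisors of the top intermediate field
-/

set_option autoImplicit false
set_option linter.unusedSectionVars false

namespace Pool.Agent.Helper27.PB

open NumberField Polynomial Module IsDedekindDomain
open Pool.Agent.Helper51.RP Pool.Agent.Helper42.RD Pool.Agent.Helper42.PP
open Pool.Agent.Helper40.RS (bel efg lies conj_of_bel)
open Pool.Agent.Helper13.RD (eq_of_val)
open Pool.Agent.Helper40.RD (bel_of_above ordW valW)

section

variable {A B : Type} [Field A] [NumberField A] [Field B] [NumberField B] [Algebra A B]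
  [IsGalois A B]

/-- In an extension of degree one the valuations do not change. -/
theorem ordW_one (h1 : finrank A B = 1) (W : HeightOneSpectrum (𝓞 B)) (x : A) :
    ordv W (algebraMap A B x) = ordv (bel A W) x := by
  rw [ordW]
  have h2 := efg (K := A) W
  rw [h1] at h2
  have h3 := Nat.eq_one_of_mul_eq_one_left h2
  have h4 := Nat.eq_one_of_mul_eq_one_right h3
  rw [Ideal.ramificationIdx'_eq_ramificationIdx (bel A W).asIdeal W.asIdeal (bel A W).ne_bot, h4]
  simp

/-- In an extension of degree one there is one prime above. -/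
theorem bel_inj_one (h1 : finrank A B = 1) :
    Function.Injective (fun W : HeightOneSpectrum (𝓞 B) => bel A W) := by
  intro W W' h
  obtain ⟨g, hg⟩ := conj_of_bel (K := A) W W' h
  have hc : Nat.card (B ≃ₐ[A] B) = 1 := by rw [IsGalois.card_aut_eq_finrank, h1]
  have hs : Subsingleton (B ≃ₐ[A] B) := (Nat.card_eq_one_iff_unique.1 hc).1
  have hg1 : g = 1 := Subsingleton.elim _ _
  apply eq_of_val
  intro y
  have := hg y
  rw [hg1] at this
  exact this

end

variable {K F : Type} [Field K] [NumberField K] [Field F] [NumberField F] [Algebra K F]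
  [IsGalois K F]

/-- If the divisors of the top intermediate field are principal outside `S` so are those of `F`. -/
theorem pr_of_top (S : Finset (HeightOneSpectrum (𝓞 K)))
    (h : ∀ n : HeightOneSpectrum (𝓞 (⊤ : IntermediateField K F)) →₀ ℤ,
      ∃ x : ((⊤ : IntermediateField K F) : Type)ˣ, ∀ w ∉ up (⊤ : IntermediateField K F) S,
        ordv w (x : (⊤ : IntermediateField K F)) = n w)
    (n : HeightOneSpectrum (𝓞 F) →₀ ℤ) : ∃ x : Fˣ, ∀ w ∉ up F S, ordv w (x : F) = n w := by
  have h1 : finrank (⊤ : IntermediateField K F) F = 1 := IntermediateField.finrank_top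
  obtain ⟨x, hx⟩ := h (n.mapDomain (fun W => bel (⊤ : IntermediateField K F) W))
  refine ⟨inc (⊤ : IntermediateField K F) F x, fun W hW => ?_⟩
  have h2 : bel (⊤ : IntermediateField K F) W ∉ up (⊤ : IntermediateField K F) S := by
    apply notMem_up (v := bel K W) (bel_notMem hW)
    exact bel_of (K := K) (M := (⊤ : IntermediateField K F)) (M₁ := F) (W := W) rfl rfl
  have h3 := hx _ h2
  rw [Finsupp.mapDomain_apply (bel_inj_one h1)] at h3
  rw [← h3]
  exact ordW_one h1 W _

end Pool.Agent.Helper27.PB
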