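import Pool.Agent.Helper76.PB.GoalsF
import Pool.Agent.Helper16.PP.PUPR

/-!
# Project B (MP_fc6b1e_nt), packet X_SPC: the primes above in a Galois extension of prime degree
-/

set_option autoImplicit false

namespace Pool.Agent.Helper27.PB

open NumberField Polynomial Module IsDedekindDomain
open Pool.Agent.Helper51.RP Pool.Agent.Helper42.RD Pool.Agent.Helper42.PP Pool.Agent.Helper76.PB
open Pool.Agent.Helper40.RS (bel gw bel_smul gw_inj val_smul)
open Pool.Agent.Helper13.RD (eq_gw)
open Pool.Agent.Helper40.RD (bel_of_above)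
open Pool.Agent.Helper16.PP (fin_above p_upr bel_of_conj)
open scoped Pointwise

section

variable {F E : Type} [Field F] [NumberField F] [Field E] [NumberField E] [Algebra F E]
  [IsGalois F E]

/-- Two primes above the same prime are conjugate. -/
theorem conj_above {v : HeightOneSpectrum (𝓞 F)} {W W' : HeightOneSpectrum (𝓞 E)}
    (h : Above W v) (h' : Above W' v) : ConjP F W' W :=
  (p_upr 0 F E (∅ : Finset (HeightOneSpectrum (𝓞 F)))).2.2.2.2.2.2 v W W' h h'

/-- There is a prime above every prime. -/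
theorem ex_above (v : HeightOneSpectrum (𝓞 F)) : ∃ W : HeightOneSpectrum (𝓞 E), Above W v :=
  (p_upr 0 F E (∅ : Finset (HeightOneSpectrum (𝓞 F)))).2.2.2.2.2.1 v

theorem free_conj {v : HeightOneSpectrum (𝓞 F)} {W W' : HeightOneSpectrum (𝓞 E)}
    (h : Above W v) (h' : Above W' v) (hf : FreeP F W) : FreeP F W' := by
  obtain ⟨g, hg⟩ := conj_above h h'
  intro k hk
  have h1 : g⁻¹ * k * g = 1 := by
    apply hf
    intro y
    rw [← hg]
    have e : g ((g⁻¹ * k * g) y) = k (g y) := by
      show (g * (g⁻¹ * k * g)) y = (k * g) y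
      congr 1
      group
    rw [e, hk, hg]
  have h2 : k = g * (g⁻¹ * k * g) * g⁻¹ := by group
  rw [h2, h1, mul_one, mul_inv_cancel]

/-- If one prime above `v` is free there are `[E : F]` of them. -/
theorem card_free {v : HeightOneSpectrum (𝓞 F)} {W : HeightOneSpectrum (𝓞 E)}
    (h : Above W v) (hf : FreeP F W) :
    {W' : HeightOneSpectrum (𝓞 E) | Above W' v}.ncard = finrank F E := by
  have h1 : {W' : HeightOneSpectrum (𝓞 E) | Above W' v} =
      (fun g : E ≃ₐ[F] E => gw g W) '' Set.univ := by
    ext W'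
    simp only [Set.mem_ofPred_eq, Set.image_univ, Set.mem_range]
    constructor
    · intro h'
      obtain ⟨g, hg⟩ := conj_above h h'
      exact ⟨g, (eq_gw g hg).symm⟩
    · rintro ⟨g, rfl⟩
      have e : bel F (gw g W) = bel F W := bel_smul g W (gw g W) rfl
      rw [← bel_of_above h, ← e]
      rfl
  rw [h1, Set.ncard_image_of_injective _ (gw_inj W hf), Set.ncard_univ,
    IsGalois.card_aut_eq_finrank]

/-- If the degree is prime and one prime above `v` is not free, it is the only one. -/
theorem card_nonfree {p : ℕ} (hp : p.Prime) (hd : finrank F E = p)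
    {v : HeightOneSpectrum (𝓞 F)} {W : HeightOneSpectrum (𝓞 E)}
    (h : Above W v) (hf : ¬ FreeP F W) :
    {W' : HeightOneSpectrum (𝓞 E) | Above W' v}.ncard = 1 := by
  have hcard : Nat.card (E ≃ₐ[F] E) = p := by
    rw [IsGalois.card_aut_eq_finrank, hd]
  have : Fact p.Prime := ⟨hp⟩
  unfold FreeP at hf
  push Not at hf
  obtain ⟨g, hg, hg1⟩ := hf
  -- the stabilizer
  let H : Subgroup (E ≃ₐ[F] E) :=
    { carrier := {k | ∀ y : E, W.valuation E (k y) = W.valuation E y}
      mul_mem' := fun {a b} ha hb y => by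
        show W.valuation E (a (b y)) = _
        rw [ha, hb]
      one_mem' := fun y => rfl
      inv_mem' := fun {a} ha y => by
        have h1 := ha (a⁻¹ y)
        have h2 : a (a⁻¹ y) = y := by
          show (a * a⁻¹) y = y
          rw [mul_inv_cancel]
          rfl
        rw [h2] at h1
        exact h1.symm }
  have hH : H = ⊤ := by
    have : Fact (Nat.card (E ≃ₐ[F] E)).Prime := ⟨by rw [hcard]; exact hp⟩
    rcases H.eq_bot_or_eq_top_of_prime_card with h0 | h0
    · exfalso
      apply hg1
      have : g ∈ H := hg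
      rw [h0] at this
      exact Subgroup.mem_bot.1 this
    · exact h0
  rw [Set.ncard_eq_one]
  refine ⟨W, ?_⟩
  ext W'
  simp only [Set.mem_ofPred_eq, Set.mem_singleton_iff]
  constructor
  · intro h'
    obtain ⟨k, hk⟩ := conj_above h' h
    have hkH : k ∈ H := by rw [hH]; exact Subgroup.mem_top _
    have h1 : W' = gw (1 : E ≃ₐ[F] E) W := by
      apply eq_gw
      intro y
      show W'.valuation E y = W.valuation E y
      rw [← hk y]
      exact hkH y
    have h2 : W = gw (1 : E ≃ₐ[F] E) W := by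
      apply eq_gw
      intro y
      rfl
    rw [h1, ← h2]
  · rintro rfl
    exact h

omit [IsGalois F E] in
theorem upZ_fin (Z : Set (HeightOneSpectrum (𝓞 F))) (hZ : Z.Finite) : (upZ E Z).Finite := by
  have h1 : upZ E Z = ⋃ v ∈ Z, {w : HeightOneSpectrum (𝓞 E) | Above w v} := by
    ext w
    simp [upZ]
  rw [h1]
  exact Set.Finite.biUnion hZ fun v _ => fin_above v

end

theorem x_spc : X_SPC := by
  intro p _ F E _ _ _ _ _ _ hd
  have hp : p.Prime := Fact.out
  refine ⟨fun v W W' h h' hf => free_conj h h' hf, ?_⟩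
  intro Z hZ
  refine ⟨upZ_fin Z hZ, ?_⟩
  induction Z, hZ using Set.Finite.induction_on with
  | empty =>
    have h1 : upZ E (∅ : Set (HeightOneSpectrum (𝓞 F))) = ∅ := by
      ext w
      simp [upZ]
    rw [h1]
    simp
  | @insert v Z hv hZ ih =>
    have h1 : upZ E (insert v Z) = {W : HeightOneSpectrum (𝓞 E) | Above W v} ∪ upZ E Z := by
      ext W
      simp [upZ]
    have hdis : Disjoint {W : HeightOneSpectrum (𝓞 E) | Above W v} (upZ E Z) := by
      rw [Set.disjoint_left]
      rintro W hW ⟨v', hv', hW'⟩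
      apply hv
      rw [← bel_of_above hW, bel_of_above hW']
      exact hv'
    rw [h1, Set.ncard_union_eq hdis (fin_above v) (upZ_fin Z hZ), Set.ncard_insert_of_notMem hv hZ]
    obtain ⟨W, hW⟩ := ex_above (E := E) v
    by_cases hf : FreeP F W
    · have h2 : {v' | v' ∈ insert v Z ∧ ∃ W : HeightOneSpectrum (𝓞 E), Above W v' ∧
          ¬ FreeP F W} = {v' | v' ∈ Z ∧ ∃ W : HeightOneSpectrum (𝓞 E), Above W v' ∧
          ¬ FreeP F W} := by
        ext v'
        simp only [Set.mem_insert_iff, Set.mem_ofPred_eq]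
        constructor
        · rintro ⟨rfl | h, W', hW', hf'⟩
          · exact absurd (free_conj hW hW' hf) hf'
          · exact ⟨h, W', hW', hf'⟩
        · rintro ⟨h, W', hW', hf'⟩
          exact ⟨Or.inr h, W', hW', hf'⟩
      rw [h2, card_free hW hf, hd, mul_add, ← ih]
      ring
    · have h2 : {v' | v' ∈ insert v Z ∧ ∃ W : HeightOneSpectrum (𝓞 E), Above W v' ∧
          ¬ FreeP F W} = insert v {v' | v' ∈ Z ∧ ∃ W : HeightOneSpectrum (𝓞 E), Above W v' ∧
          ¬ FreeP F W} := by
        ext v'
        simp only [Set.mem_insert_iff, Set.mem_ofPred_eq]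
        constructor
        · rintro ⟨rfl | h, W', hW', hf'⟩
          · exact Or.inl rfl
          · exact Or.inr ⟨h, W', hW', hf'⟩
        · rintro (rfl | ⟨h, W', hW', hf'⟩)
          · exact ⟨Or.inl rfl, W, hW, hf⟩
          · exact ⟨Or.inr h, W', hW', hf'⟩
      rw [h2, Set.ncard_insert_of_notMem (fun h => hv h.1) (hZ.subset fun v' h => h.1),
        card_nonfree hp hd hW hf, mul_add, mul_add, ← ih]
      have := hp.one_lt
      generalize (upZ E Z).ncard = a
      generalize {v' | v' ∈ Z ∧ ∃ W : HeightOneSpectrum (𝓞 E), Above W v' ∧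
          ¬ FreeP F W}.ncard = b
      obtain ⟨q, rfl⟩ : ∃ q, p = q + 1 := ⟨p - 1, by omega⟩
      simp only [Nat.add_sub_cancel]
      ring

end Pool.Agent.Helper27.PB
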