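import Pool.Agent.Helper76.PB.GoalsV
import Pool.Agent.Helper42.PB.SMF
import Pool.Agent.Helper27.PB.PrTop
import Pool.Agent.Helper27.PB.XSPC

/-!
# Project B (MP_fc6b1e_nt), packet V_SM2F: the functional of `sm` over `M₂`
-/

set_option autoImplicit false
set_option linter.unusedSectionVars false

namespace Pool.Agent.Helper27.PB

open NumberField Polynomial Module IsDedekindDomain
open Pool.Agent.Helper51.RP Pool.Agent.Helper42.RD Pool.Agent.Helper42.PP Pool.Agent.Helper42.PP1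
open Pool.Agent.Helper42.PB Pool.Agent.Helper76.PP Pool.Agent.Helper76.PB
open Pool.Agent.Helper40.RS (bel gw bel_smul lies conj_of_bel val_smul)
open Pool.Agent.Helper13.RD (eq_gw eq_of_val)
open Pool.Agent.Helper40.RD (bel_of_above ordW valW)

section cong

variable {K M F : Type} [Field K] [NumberField K] [Field M] [NumberField M] [Field F]
  [NumberField F] [Algebra K M] [Algebra K F] [Algebra M F] [IsScalarTower K M F]
  [IsGalois K M] [IsGalois K F]

theorem above_trans {v : HeightOneSpectrum (𝓞 K)} {w : HeightOneSpectrum (𝓞 M)}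
    {W : HeightOneSpectrum (𝓞 F)} (h1 : Above W w) (h2 : Above w v) : Above W v := by
  have e := Pool.Agent.Helper42.RD.bel_bel (K := K) (M := M) W
  rw [bel_of_above h1, bel_of_above h2] at e
  rw [e]
  rfl

/-- A product of elements congruent to `1` is congruent to `1`. -/
theorem prod_cong {ι : Type} (W : HeightOneSpectrum (𝓞 F)) (s : Finset ι) (f : ι → 𝓞 F)
    (h : ∀ i ∈ s, f i - 1 ∈ W.asIdeal) : (∏ i ∈ s, f i) - 1 ∈ W.asIdeal := by
  classical
  induction s using Finset.induction_on with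
  | empty => rw [Finset.prod_empty, sub_self]; exact Ideal.zero_mem _
  | insert a s ha ih =>
    rw [Finset.prod_insert ha]
    have h1 := h a (Finset.mem_insert_self a s)
    have h2 := ih fun i hi => h i (Finset.mem_insert_of_mem hi)
    have e : f a * ∏ i ∈ s, f i - 1 = f a * (∏ i ∈ s, f i - 1) + (f a - 1) := by ring
    rw [e]
    exact Ideal.add_mem _ (Ideal.mul_mem_left _ _ h2) h1

/-- The image of an integer under an automorphism. -/
noncomputable def actO (h : F ≃ₐ[M] F) (α : 𝓞 F) : 𝓞 F := RingOfIntegers.mapRingHom (h : F →+* F) α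

theorem coe_actO (h : F ≃ₐ[M] F) (α : 𝓞 F) : ((actO h α : 𝓞 F) : F) = h (α : F) := rfl

/-- The norm of an integer, in `F`. -/
theorem inc_nrm [IsGalois M F] (x : Fˣ) (α : 𝓞 F) (hx : (x : F) = α) :
    algebraMap M F ((nrm M F x : Mˣ) : M) = ((∏ h : F ≃ₐ[M] F, actO h α : 𝓞 F) : F) := by
  have h1 : ((nrm M F x : Mˣ) : M) = Algebra.norm M (x : F) := rfl
  have h2 : ((∏ h : F ≃ₐ[M] F, actO h α : 𝓞 F) : F) = ∏ h : F ≃ₐ[M] F, ((actO h α : 𝓞 F) : F) :=
    map_prod (algebraMap (𝓞 F) F) _ _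
  rw [h1, Algebra.norm_eq_prod_automorphisms, h2, hx]
  exact Finset.prod_congr rfl fun h _ => (coe_actO h α).symm

theorem mem_val {E : Type} [Field E] [NumberField E] (w : HeightOneSpectrum (𝓞 E)) (x : 𝓞 E) :
    w.valuation E (x : E) < 1 ↔ x ∈ w.asIdeal :=
  HeightOneSpectrum.valuation_lt_one_iff_mem (K := E) w x

/-- The norm of `α`, if `α ≡ 1` at the other primes above `v` and `α ≡ c` at the free prime `W₀`. -/
theorem nrm_cong {v : HeightOneSpectrum (𝓞 K)} {w₀ : HeightOneSpectrum (𝓞 M)}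
    {W₀ : HeightOneSpectrum (𝓞 F)} (hw₀ : Above w₀ v) (hW₀ : Above W₀ w₀) (hWv : Above W₀ v)
    (hf : FreeP K W₀) (c : 𝓞 K) (α : 𝓞 F) (x : Fˣ) (hx : (x : F) = α)
    (hc : α - algebraMap (𝓞 K) (𝓞 F) c ∈ W₀.asIdeal)
    (h1 : ∀ W : HeightOneSpectrum (𝓞 F), Above W v → W ≠ W₀ → α - 1 ∈ W.asIdeal) :
    w₀.valuation M (((nrm M F x : Mˣ) : M) - algebraMap K M (c : K)) < 1 ∧
    ∀ w' : HeightOneSpectrum (𝓞 M), Above w' v → w' ≠ w₀ →
      w'.valuation M (((nrm M F x : Mˣ) : M) - 1) < 1 := by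
  classical
  have hG : IsGalois M F := IsGalois.tower_top_of_isGalois K M F
  have hnrm := inc_nrm (M := M) x α hx
  -- pull back of a congruence
  have hpull : ∀ (W : HeightOneSpectrum (𝓞 F)) (h : F ≃ₐ[M] F), ∃ W' : HeightOneSpectrum (𝓞 F),
      (∀ y : F, W.valuation F (h y) = W'.valuation F y) ∧ bel M W' = bel M W :=
    fun W h => exists_pull (K := M) W h
  constructor
  · rw [← val_lt_iff hW₀, map_sub, hnrm]
    have e1 : algebraMap M F (algebraMap K M (c : K)) =
        ((algebraMap (𝓞 K) (𝓞 F) c : 𝓞 F) : F) := by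
      rw [← IsScalarTower.algebraMap_apply K M F]
      rfl
    have e2 : ((∏ h : F ≃ₐ[M] F, actO h α : 𝓞 F) : F) - ((algebraMap (𝓞 K) (𝓞 F) c : 𝓞 F) : F) =
        (((∏ h : F ≃ₐ[M] F, actO h α) - algebraMap (𝓞 K) (𝓞 F) c : 𝓞 F) : F) :=
      (map_sub (algebraMap (𝓞 F) F) _ _).symm
    rw [e1, e2, mem_val]
    have h2 : (∏ h ∈ (Finset.univ : Finset (F ≃ₐ[M] F)).erase 1, actO h α) - 1 ∈ W₀.asIdeal := by
      apply prod_cong
      intro h hh
      obtain ⟨W', hW', hb⟩ := hpull W₀ h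
      have hne : W' ≠ W₀ := by
        rintro rfl
        have h3 := hf (h.restrictScalars K) hW'
        apply (Finset.mem_erase.1 hh).1
        ext y
        exact congrArg (fun f : F ≃ₐ[K] F => f y) h3
      have hv' : Above W' v := by
        rw [bel_of_above hW₀] at hb
        have h4 : Above W' w₀ := by rw [← hb]; rfl
        exact above_trans h4 hw₀
      have h5 := h1 W' hv' hne
      rw [← mem_val] at h5 ⊢
      have e3 : ((actO h α - 1 : 𝓞 F) : F) = h ((α - 1 : 𝓞 F) : F) := by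
        have e4 : ∀ a b : 𝓞 F, ((a - b : 𝓞 F) : F) = (a : F) - (b : F) :=
          fun a b => map_sub (algebraMap (𝓞 F) F) a b
        rw [e4, e4, map_sub, coe_actO]
        congr 1
        show (1 : F) = h 1
        rw [map_one]
      rw [e3, hW']
      exact h5
    rw [← Finset.mul_prod_erase Finset.univ _ (Finset.mem_univ (1 : F ≃ₐ[M] F))]
    have e5 : actO (1 : F ≃ₐ[M] F) α = α := RingOfIntegers.ext rfl
    rw [e5]
    have e6 : α * ∏ h ∈ (Finset.univ : Finset (F ≃ₐ[M] F)).erase 1, actO h α -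
        algebraMap (𝓞 K) (𝓞 F) c =
        α * ((∏ h ∈ (Finset.univ : Finset (F ≃ₐ[M] F)).erase 1, actO h α) - 1) +
        (α - algebraMap (𝓞 K) (𝓞 F) c) := by ring
    rw [e6]
    exact Ideal.add_mem _ (Ideal.mul_mem_left _ _ h2) hc
  · intro w' hw' hne
    obtain ⟨W', hW'⟩ := (Pool.Agent.Helper16.PP.p_upr 0 M F ∅).2.2.2.2.2.1 w'
    rw [← val_lt_iff hW', map_sub, hnrm, map_one]
    have e2 : ((∏ h : F ≃ₐ[M] F, actO h α : 𝓞 F) : F) - 1 =
        (((∏ h : F ≃ₐ[M] F, actO h α) - 1 : 𝓞 F) : F) := by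
      have e4 : ∀ a b : 𝓞 F, ((a - b : 𝓞 F) : F) = (a : F) - (b : F) :=
        fun a b => map_sub (algebraMap (𝓞 F) F) a b
      rw [e4]
      rfl
    rw [e2, mem_val]
    apply prod_cong
    intro h _
    obtain ⟨W'', hW'', hb⟩ := hpull W' h
    have h4 : Above W'' w' := by
      rw [bel_of_above hW'] at hb
      rw [← hb]; rfl
    have hne' : W'' ≠ W₀ := by
      rintro rfl
      apply hne
      rw [← bel_of_above h4, bel_of_above hW₀]
    have hv' : Above W'' v := above_trans h4 hw'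
    have h5 := h1 W'' hv' hne'
    rw [← mem_val] at h5 ⊢
    have e3 : ((actO h α - 1 : 𝓞 F) : F) = h ((α - 1 : 𝓞 F) : F) := by
      have e4 : ∀ a b : 𝓞 F, ((a - b : 𝓞 F) : F) = (a : F) - (b : F) :=
        fun a b => map_sub (algebraMap (𝓞 F) F) a b
      rw [e4, e4, map_sub, coe_actO]
      congr 1
      show (1 : F) = h 1
      rw [map_one]
    rw [e3, hW'']
    exact h5

end cong


section val

variable {p : ℕ} [Fact p.Prime]
  {K M K₁ M₁ : Type} [Field K] [NumberField K] [Field M] [NumberField M] [Field K₁]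
  [NumberField K₁] [Field M₁] [NumberField M₁] [Algebra K M] [Algebra K K₁] [Algebra K M₁]
  [Algebra M M₁] [Algebra K₁ M₁] [IsScalarTower K M M₁] [IsScalarTower K K₁ M₁]
  [IsGalois K M] [IsGalois K K₁] [IsGalois K M₁] {ε : K₁} {δ : M ≃ₐ[K] M} {P : (ZMod p)[X]}
  {n : ℕ}

/-- The value of `R v` at an element congruent to `c` at `w₀` and to `1` at the other primes. -/
theorem R_val (hLOG : W_LOG) (hs : SitW p K M K₁ M₁ ε δ P) (hord : orderOf δ = finrank K M)
    (B : Base p K M K₁ M₁ ε δ P) {v : HeightOneSpectrum (𝓞 K)} (hvis : v ∈ B.Vis)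
    {i : ℕ} (hi : i < finrank K M) {w₀ : HeightOneSpectrum (𝓞 M)}
    (hw₀ : ∀ y : M, (B.w v).valuation M ((δ ^ i) y) = w₀.valuation M y)
    {c : K} (hcth : ∀ x : M₁ˣ, (B.W v).valuation M₁ ((x : M₁) - algebraMap K M₁ c) < 1 →
      B.th v x = 1) (x : Mˣ) (h1 : w₀.valuation M ((x : M) - algebraMap K M c) < 1)
    (h2 : ∀ w' : HeightOneSpectrum (𝓞 M), Above w' v → w' ≠ w₀ →
      w'.valuation M ((x : M) - 1) < 1) :
    B.R v x = (AdjoinRoot.root P) ^ (finrank K M - i) := by
  classical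
  have : IsGalois M M₁ := IsGalois.tower_top_of_isGalois K M M₁
  obtain ⟨hWv, hWQ, hWw, hWf⟩ := B.Wa v hvis
  have hwv : Above (B.w v) v := bel_of hWv hWw
  have hwf : FreeP K (B.w v) := free_below hWw hWf
  unfold Base.R kf
  rw [Finset.sum_eq_single i]
  · have h3 : B.th v (inc M M₁ (act (δ ^ i) x)) = 1 := by
      apply hcth
      have h4 : ((inc M M₁ (act (δ ^ i) x) : M₁ˣ) : M₁) - algebraMap K M₁ c =
          algebraMap M M₁ ((δ ^ i) ((x : M) - algebraMap K M c)) := by
        rw [map_sub, map_sub, AlgEquiv.commutes, ← IsScalarTower.algebraMap_apply K M M₁]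
        rfl
      rw [h4, val_lt_iff hWw, hw₀]
      exact h1
    simp only [h3, map_one, one_mul]
  · intro j hj hji
    obtain ⟨w', hw', hw'b⟩ := exists_pull (K := K) (B.w v) (δ ^ j)
    have hw'v : Above w' v := by
      rw [bel_of_above hwv] at hw'b
      rw [← hw'b]; rfl
    have hne : w' ≠ w₀ := fun h =>
      hji (pull_ne hwf hord (Finset.mem_range.1 hj) hi hw' hw₀ h)
    have h3 : B.th v (inc M M₁ (act (δ ^ j) x)) = 0 := by
      apply (hLOG p K M K₁ M₁ ε δ P hs B v hvis).1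
      have h4 : ((inc M M₁ (act (δ ^ j) x) : M₁ˣ) : M₁) - 1 =
          algebraMap M M₁ ((δ ^ j) ((x : M) - 1)) := by
        rw [map_sub, map_sub, map_one, map_one]
        rfl
      rw [h4, val_lt_iff hWw, hw']
      exact h2 w' hw'v hne
    simp only [h3, map_zero, zero_mul]
  · intro h
    exact absurd (Finset.mem_range.2 hi) h

end val

end Pool.Agent.Helper27.PB
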